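import Pool.Agent.R429.OS.Eq

/-!
# One class decides all classes

For a fixed modulus `q` and `1/2 ≤ y < 1`, the bound `|ψ(x; q, b) - x/φ(q)| ≪ x ^ (y + ε)` for every
reduced class `b` and every `x` is equivalent to its lower half, in mean over dyadic intervals, in the
single class `1`; and the generalized Riemann hypothesis is equivalent to Montgomery's bound at one
modulus `N(X)` for each `X`, and to its lower half in mean at one modulus of any size.
-/

set_option autoImplicit false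

namespace Pool.Agent.Results.MP_9cfc0a_nt.OneClassDecides

open MeasureTheory Filter Topology

/-- `ψ(x; m, b)`: the sum of `Λ(n)` over `1 ≤ n ≤ x` with `n ≡ b mod m`. -/
noncomputable def psi (x : ℝ) (m b : ℕ) : ℝ :=
  ∑ n ∈ (Finset.Icc 1 ⌊x⌋₊).filter (fun n => n ≡ b [MOD m]), ArithmeticFunction.vonMangoldt n

/-- The negative part of the error: `max(x/φ(m) - ψ(x; m, b), 0)`. -/
noncomputable def neg (x : ℝ) (m b : ℕ) : ℝ := max (x / m.totient - psi x m b) 0

/-- The reduced residues `b < m` modulo `m` with `b ≡ 1 mod q`. -/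
def classes (q m : ℕ) : Finset ℕ := (Finset.range m).filter (fun b => b.Coprime m ∧ b ≡ 1 [MOD q])

/-- No L-function of a Dirichlet character modulo `q` has a zero with real part greater than `y`
(`s = 1` excluded for the principal character, whose L-function has a pole there). -/
def NoZeros (q : ℕ) [NeZero q] (y : ℝ) : Prop :=
  ∀ χ : DirichletCharacter ℂ q, ∀ s : ℂ, y < s.re → (s ≠ 1 ∨ χ ≠ 1) → DirichletCharacter.LFunction χ s ≠ 0

/-- The generalized Riemann hypothesis for Dirichlet L-functions. -/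
def GRH : Prop := ∀ (k : ℕ) [NeZero k], NoZeros k (1 / 2)

theorem result :
    -- fixed modulus
    (∀ (q : ℕ) [NeZero q] (y : ℝ), 1 / 2 ≤ y → y < 1 → List.TFAE [
      NoZeros q y,
      -- all classes, pointwise, both sides
      ∀ ε : ℝ, 0 < ε → ∃ C : ℝ, ∀ x : ℝ, 1 ≤ x → ∀ b : ℕ, b.Coprime q →
        |psi x q b - x / q.totient| ≤ C * x ^ (y + ε),
      -- the class 1, one side, in mean
      ∀ ε : ℝ, 0 < ε → ∀ᶠ X : ℝ in atTop, ∫ x in X..(2 * X), neg x q 1 ≤ X ^ (1 + y + ε),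
      -- one modulus of any size for each dyadic interval
      ∀ ε : ℝ, 0 < ε → ∀ᶠ X : ℝ in atTop, ∃ m : ℕ, 0 < m ∧ q ∣ m ∧
        ∫ x in X..(2 * X), ∑ b ∈ classes q m, neg x m b ≤ X ^ (1 + y + ε)]) ∧
    -- all moduli
    List.TFAE [
      GRH,
      -- Montgomery's bound at one modulus for each `X`
      ∃ N : ℝ → ℕ, (∀ k : ℕ, 0 < k → ∀ᶠ X : ℝ in atTop, k ∣ N X) ∧
        ∀ ε : ℝ, 0 < ε → ∀ᶠ X : ℝ in atTop, 0 < N X ∧ (N X : ℝ) ≤ X ^ ε ∧
          ∀ x ∈ Set.Icc X (2 * X), ∀ b : ℕ, b.Coprime (N X) →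
            |psi x (N X) b - x / (N X).totient| ≤ x ^ (1 / 2 + ε) / √(N X),
      -- the lower half, in mean, at one modulus of any size for each `X`
      ∃ N : ℝ → ℕ, (∀ k : ℕ, 0 < k → ∀ᶠ X : ℝ in atTop, k ∣ N X) ∧ (∀ᶠ X : ℝ in atTop, 0 < N X) ∧
        ∀ k : ℕ, 0 < k → ∀ ε : ℝ, 0 < ε → ∀ᶠ X : ℝ in atTop,
          ∫ x in X..(2 * X), ∑ b ∈ classes k (N X), neg x (N X) b ≤ X ^ (3 / 2 + ε)] :=
  ⟨fun q _ y hy hy1 => Pool.Agent.R429.OS.tfae q y hy hy1, Pool.Agent.R429.OS.tfae_grh⟩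

end Pool.Agent.Results.MP_9cfc0a_nt.OneClassDecides
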