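import Pool.Agent.R303.SW.Ap

/-!
# Montgomery's bound at one modulus, for isolated `x`

`ψ(x;q,a)` is the sum of `Λ(n)` over `n ≤ x`, `n ≡ a (mod q)`.

1. If `ζ` has a zero with real part `> θ ≥ 1/2`, then for `κ ≥ 0` with `4θ(1-θ)(κ+1) ≤ 1`, `c > 0`,
   `0 < ε < 1` and all large `X`: for all `0 < H ≤ X^(1-ε)` and all `1 ≤ q ≤ X`
   `∫_X^{X + cX/(log X)^κ} ∑_{a mod q, (a,q)=1} |ψ(y+H;q,a) - ψ(y;q,a) - H/φ(q)| dy ≥ H X^θ`.
2. Under the same assumption Montgomery's bound fails at every large `X` and for every modulus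
   `q ≤ X^(2θ-1-ε)`: there are a reduced class `a` and `y ∈ [X, X + cX/(log X)^κ]` with
   `|ψ(y;q,a) - y/φ(q)| ≥ X^(1/2+ε/8)/q^(1/2)`.
3. The Riemann hypothesis holds if and only if for every `0 < ε < 1` there are arbitrarily large `X` and
   at least one modulus `q ≤ X^ε` such that `|ψ(y;q,a) - y/φ(q)| ≤ X^(1/2+ε)/q^(1/2)` for all reduced
   classes `a` and all `y ∈ [X,2X]`.
-/

set_option autoImplicit false
set_option maxHeartbeats 4000000

open Filter Topology Set MeasureTheory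
open Pool.Agent.W190 (rh_free)

namespace Pool.Agent.Results.MP_9cfc0a_nt.OneModulusCriterion

/-- `ψ(x;q,a)`: the sum of `Λ(n)` over the `n ≤ x` with `n ≡ a` modulo `q`. -/
noncomputable def psi (x : ℝ) (q a : ℕ) : ℝ :=
  ∑ n ∈ (Finset.Icc 1 ⌊x⌋₊).filter (fun n => n ≡ a [MOD q]), ArithmeticFunction.vonMangoldt n

theorem part1 (θ κ c ε : ℝ) (hθ : 1 / 2 ≤ θ) (hκ : 0 ≤ κ) (hcond : 4 * θ * (1 - θ) * (κ + 1) ≤ 1)
    (hc : 0 < c) (hε : 0 < ε) (hε1 : ε < 1) (hz : ∃ s : ℂ, riemannZeta s = 0 ∧ θ < s.re) :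
    ∀ᶠ X : ℝ in atTop, ∀ H : ℝ, 0 < H → H ≤ X ^ (1 - ε) → ∀ q : ℕ, 1 ≤ q → (q : ℝ) ≤ X →
      H * X ^ θ ≤ ∫ y in X..(X + c * X / Real.log X ^ κ),
        ∑ a ∈ (Finset.range q).filter (fun a => Nat.Coprime a q),
          |psi (y + H) q a - psi y q a - H / Nat.totient q| :=
  Pool.Agent.R303.SW.ap_low hθ hκ hc hcond hz hε hε1

theorem part2 (θ κ c ε : ℝ) (hθ : 1 / 2 ≤ θ) (hκ : 0 ≤ κ) (hcond : 4 * θ * (1 - θ) * (κ + 1) ≤ 1)
    (hc : 0 < c) (hε : 0 < ε) (hε1 : ε < 1) (hz : ∃ s : ℂ, riemannZeta s = 0 ∧ θ < s.re) :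
    ∀ᶠ X : ℝ in atTop, ∀ q : ℕ, 1 ≤ q → (q : ℝ) ≤ X ^ (2 * θ - 1 - ε) →
      ∃ a : ℕ, Nat.Coprime a q ∧ ∃ y : ℝ, X ≤ y ∧ y ≤ X + c * X / Real.log X ^ κ ∧
        X ^ (1 / 2 + ε / 8) / Real.sqrt q ≤ |psi y q a - y / Nat.totient q| := by
  have hs1 : θ < 1 := by
    obtain ⟨s, hs, hsθ⟩ := hz
    exact hsθ.trans (Pool.Agent.W190.zero_FF hs).2
  have h1 := part1 θ κ (c / 2) (ε / 8) hθ hκ hcond (by linarith) (by linarith) (by linarith) hz
  have t1 : ∀ᶠ X : ℝ in atTop, c < X ^ (ε / 4) :=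
    (tendsto_rpow_atTop (by linarith)).eventually_gt_atTop _
  have t2 : ∀ᶠ X : ℝ in atTop, ‖Real.log X ^ κ‖ ≤ c / 2 * ‖X ^ (ε / 8)‖ :=
    (isLittleO_log_rpow_rpow_atTop κ (by linarith : 0 < ε / 8)).def (by linarith)
  filter_upwards [h1, t1, t2, eventually_ge_atTop (3:ℝ)] with X g1 g2 g5 g3 q hq hqX
  have hX : 0 < X := by linarith
  have hlog : 1 < Real.log X := by
    rw [Real.lt_log_iff_exp_lt hX]
    have := Real.exp_one_lt_d9
    linarith
  have hlk : 1 ≤ Real.log X ^ κ := Real.one_le_rpow hlog.le hκ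
  set H := X ^ (1 - ε / 8) with hH
  have hH0 : 0 < H := by positivity
  have hq0 : (0:ℝ) < q := by exact_mod_cast hq
  have hqX' : (q : ℝ) ≤ X := by
    refine hqX.trans ?_
    conv_rhs => rw [← Real.rpow_one X]
    exact Real.rpow_le_rpow_of_exponent_le (by linarith) (by linarith)
  have hHw : H ≤ c / 2 * X / Real.log X ^ κ := by
    rw [le_div_iff₀ (by positivity)]
    rw [Real.norm_of_nonneg (by positivity), Real.norm_of_nonneg (by positivity)] at g5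
    calc H * Real.log X ^ κ ≤ H * (c / 2 * X ^ (ε / 8)) := by gcongr
      _ = c / 2 * (X ^ (1 - ε / 8) * X ^ (ε / 8)) := by rw [hH]; ring
      _ = c / 2 * X := by rw [← Real.rpow_add hX, sub_add_cancel, Real.rpow_one]
  have hsplit : X + c * X / Real.log X ^ κ =
      X + c / 2 * X / Real.log X ^ κ + c / 2 * X / Real.log X ^ κ := by ring
  have hw0 : 0 ≤ c / 2 * X / Real.log X ^ κ := by positivity
  have hw1 : c / 2 * X / Real.log X ^ κ ≤ c / 2 * X := div_le_self (by positivity) hlk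
  by_contra hcon
  push Not at hcon
  set K := X ^ (1 / 2 + ε / 8) / Real.sqrt q with hK
  have hK0 : 0 ≤ K := by positivity
  have h2 := g1 H hH0 le_rfl q hq hqX'
  have hφ : (0:ℝ) < Nat.totient q := by
    have := Nat.totient_pos.2 hq
    exact_mod_cast this
  have hφq : (Nat.totient q : ℝ) ≤ q := by exact_mod_cast Nat.totient_le q
  have h3 : ∀ y ∈ Icc X (X + c / 2 * X / Real.log X ^ κ),
      ∑ a ∈ (Finset.range q).filter (fun a => Nat.Coprime a q),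
          |psi (y + H) q a - psi y q a - H / Nat.totient q| ≤ 2 * K * q := by
    intro y hy
    calc ∑ a ∈ (Finset.range q).filter (fun a => Nat.Coprime a q),
          |psi (y + H) q a - psi y q a - H / Nat.totient q| ≤
        ∑ a ∈ (Finset.range q).filter (fun a => Nat.Coprime a q), 2 * K := by
          refine Finset.sum_le_sum fun a ha => ?_
          rw [Finset.mem_filter] at ha
          have b1 := hcon a ha.2 y hy.1 (by linarith [hy.2])
          have b2 := hcon a ha.2 (y + H) (by linarith [hy.1]) (by linarith [hy.2])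
          have e : psi (y + H) q a - psi y q a - H / Nat.totient q =
              (psi (y + H) q a - (y + H) / Nat.totient q) - (psi y q a - y / Nat.totient q) := by ring
          rw [e]
          refine (abs_sub _ _).trans ?_
          linarith
      _ = 2 * K * Nat.totient q := by
          rw [Finset.sum_const, nsmul_eq_mul]
          have := Pool.Agent.R303.SW.card_red q
          unfold Pool.Agent.R303.SW.red at this
          rw [this]
          ring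
      _ ≤ 2 * K * q := by gcongr
  have h4 : ∫ y in X..(X + c / 2 * X / Real.log X ^ κ),
        ∑ a ∈ (Finset.range q).filter (fun a => Nat.Coprime a q),
          |psi (y + H) q a - psi y q a - H / Nat.totient q| ≤
      ∫ _y in X..(X + c / 2 * X / Real.log X ^ κ), 2 * K * q := by
    refine intervalIntegral.integral_mono_on (by linarith) ?_ intervalIntegrable_const h3
    have := IntervalIntegrable.sum (Pool.Agent.R303.SW.red q) (f := fun a y =>
      |Pool.Agent.R303.SW.psiAP (y + H) q a - Pool.Agent.R303.SW.psiAP y q a - H / Nat.totient q|)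
      (μ := volume) (a := X) (b := X + c / 2 * X / Real.log X ^ κ)
      (fun a _ => (Pool.Agent.R303.SW.ap_II q a H _ _ (H / Nat.totient q)).abs)
    refine this.congr (fun y _ => ?_)
    simp [psi, Pool.Agent.R303.SW.psiAP, Pool.Agent.R303.SW.red]
  rw [intervalIntegral.integral_const, smul_eq_mul, add_sub_cancel_left] at h4
  have h5 : H * X ^ θ ≤ c * X * (K * q) := by
    calc H * X ^ θ ≤ c / 2 * X / Real.log X ^ κ * (2 * K * q) := h2.trans h4
      _ ≤ c / 2 * X * (2 * K * q) := by gcongr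
      _ = c * X * (K * q) := by ring
  have h6 : K * q = X ^ (1 / 2 + ε / 8) * Real.sqrt q := by
    have hsq := Real.mul_self_sqrt hq0.le
    have hs0 : 0 < Real.sqrt q := Real.sqrt_pos.2 hq0
    rw [hK, div_mul_eq_mul_div, div_eq_iff hs0.ne', mul_assoc, hsq]
  have h7 : Real.sqrt q ≤ X ^ (θ - 1 / 2 - ε / 2) := by
    rw [Real.sqrt_le_left (by positivity), ← Real.rpow_natCast, ← Real.rpow_mul hX.le]
    refine hqX.trans (le_of_eq ?_)
    congr 1
    push_cast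
    ring
  have h8 : H * X ^ θ < H * X ^ θ := by
    calc H * X ^ θ ≤ c * X * (X ^ (1 / 2 + ε / 8) * Real.sqrt q) := by rw [← h6]; exact h5
      _ ≤ c * X * (X ^ (1 / 2 + ε / 8) * X ^ (θ - 1 / 2 - ε / 2)) := by gcongr
      _ < X ^ (ε / 4) * X * (X ^ (1 / 2 + ε / 8) * X ^ (θ - 1 / 2 - ε / 2)) := by gcongr
      _ = H * X ^ θ := by
          rw [← Real.rpow_add_one hX.ne', hH, ← Real.rpow_add hX, ← Real.rpow_add hX, ← Real.rpow_add hX]
          congr 1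
          ring
  exact lt_irrefl _ h8

theorem part3a (hrh : RiemannHypothesis) (ε : ℝ) (hε : 0 < ε) (_hε1 : ε < 1) :
    ∃ᶠ X : ℝ in atTop, ∃ q : ℕ, 1 ≤ q ∧ (q : ℝ) ≤ X ^ ε ∧ ∀ a : ℕ, Nat.Coprime a q →
      ∀ y : ℝ, X ≤ y → y ≤ 2 * X →
        |psi y q a - y / Nat.totient q| ≤ X ^ (1 / 2 + ε) / Real.sqrt q := by
  obtain ⟨C, hC0, hC⟩ := Pool.Agent.W190.psi_of_free (1 / 2) le_rfl (rh_free.1 hrh) (1 / 2 + ε / 2)
    (by linarith) (by linarith)
  have t1 : ∀ᶠ X : ℝ in atTop, C * 2 ^ (1 / 2 + ε / 2) ≤ X ^ (ε / 2) :=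
    (tendsto_rpow_atTop (by linarith)).eventually_ge_atTop _
  refine Eventually.frequently ?_
  filter_upwards [t1, eventually_ge_atTop (1:ℝ)] with X g1 g2
  have hX : 0 < X := by linarith
  refine ⟨1, le_rfl, ?_, fun a _ y hy1 hy2 => ?_⟩
  · rw [Nat.cast_one]
    exact Real.one_le_rpow g2 hε.le
  have e1 : psi y 1 a = Chebyshev.psi y := by
    rw [← Pool.Agent.W190.SF_psi]
    unfold psi Pool.Agent.W190.SF
    rw [Finset.filter_true_of_mem (fun n _ => Nat.modEq_one)]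
  rw [e1, Nat.totient_one, Nat.cast_one, Real.sqrt_one, div_one, div_one]
  refine (hC y (by linarith)).trans ?_
  calc C * y ^ (1 / 2 + ε / 2) ≤ C * (2 * X) ^ (1 / 2 + ε / 2) :=
        mul_le_mul_of_nonneg_left (Real.rpow_le_rpow (by linarith) hy2 (by linarith)) hC0.le
    _ = C * 2 ^ (1 / 2 + ε / 2) * X ^ (1 / 2 + ε / 2) := by
        rw [Real.mul_rpow (by norm_num) hX.le]
        ring
    _ ≤ X ^ (ε / 2) * X ^ (1 / 2 + ε / 2) := by gcongr
    _ = X ^ (1 / 2 + ε) := by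
        rw [← Real.rpow_add hX]
        congr 1
        ring

theorem part3b (h : ∀ ε : ℝ, 0 < ε → ε < 1 →
      ∃ᶠ X : ℝ in atTop, ∃ q : ℕ, 1 ≤ q ∧ (q : ℝ) ≤ X ^ ε ∧ ∀ a : ℕ, Nat.Coprime a q →
        ∀ y : ℝ, X ≤ y → y ≤ 2 * X →
          |psi y q a - y / Nat.totient q| ≤ X ^ (1 / 2 + ε) / Real.sqrt q) :
    RiemannHypothesis := by
  rw [rh_free]
  intro s hs hz
  have hs1 : s.re < 1 := (Pool.Agent.W190.zero_FF hz).2
  set θ := (1 / 2 + s.re) / 2 with hθ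
  have h1 : 1 / 2 < θ := by rw [hθ]; linarith
  have h2 : θ < s.re := by rw [hθ]; linarith
  have hθ1 : θ < 1 := by linarith
  set ε := (2 * θ - 1) / 2 with hε
  have hε0 : 0 < ε := by rw [hε]; linarith
  have hε1 : ε < 1 := by rw [hε]; linarith
  have h3 := part2 θ 0 1 ε h1.le le_rfl (by nlinarith [sq_nonneg (2 * θ - 1)]) one_pos hε0 hε1 ⟨s, hz, h2⟩
  obtain ⟨X, ⟨q, a1, a2, a3⟩, a4, a5⟩ :=
    ((h (ε / 16) (by linarith) (by linarith)).and_eventually (h3.and (eventually_gt_atTop 1))).exists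
  have hX : 0 < X := by linarith
  have hq0 : (0:ℝ) < q := by exact_mod_cast a1
  obtain ⟨a, b1, y, b2, b3, b4⟩ := a4 q a1 (by
    refine a2.trans (Real.rpow_le_rpow_of_exponent_le a5.le ?_)
    rw [hε]
    linarith)
  rw [Real.rpow_zero, div_one, one_mul] at b3
  have h5 := b4.trans (a3 a b1 y b2 (by linarith))
  have h6 : X ^ (1 / 2 + ε / 16) / Real.sqrt q < X ^ (1 / 2 + ε / 8) / Real.sqrt q := by
    refine div_lt_div_of_pos_right ?_ (Real.sqrt_pos.2 hq0)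
    exact Real.rpow_lt_rpow_of_exponent_lt a5 (by linarith)
  exact absurd h5 (not_le.2 h6)

/-- Montgomery's bound at one modulus, for isolated `x`. -/
theorem result :
    (∀ θ κ c ε : ℝ, 1 / 2 ≤ θ → 0 ≤ κ → 4 * θ * (1 - θ) * (κ + 1) ≤ 1 → 0 < c → 0 < ε → ε < 1 →
      (∃ s : ℂ, riemannZeta s = 0 ∧ θ < s.re) →
      ∀ᶠ X : ℝ in atTop, ∀ H : ℝ, 0 < H → H ≤ X ^ (1 - ε) → ∀ q : ℕ, 1 ≤ q → (q : ℝ) ≤ X →
        H * X ^ θ ≤ ∫ y in X..(X + c * X / Real.log X ^ κ),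
          ∑ a ∈ (Finset.range q).filter (fun a => Nat.Coprime a q),
            |psi (y + H) q a - psi y q a - H / Nat.totient q|) ∧
    (∀ θ κ c ε : ℝ, 1 / 2 ≤ θ → 0 ≤ κ → 4 * θ * (1 - θ) * (κ + 1) ≤ 1 → 0 < c → 0 < ε → ε < 1 →
      (∃ s : ℂ, riemannZeta s = 0 ∧ θ < s.re) →
      ∀ᶠ X : ℝ in atTop, ∀ q : ℕ, 1 ≤ q → (q : ℝ) ≤ X ^ (2 * θ - 1 - ε) →
        ∃ a : ℕ, Nat.Coprime a q ∧ ∃ y : ℝ, X ≤ y ∧ y ≤ X + c * X / Real.log X ^ κ ∧
          X ^ (1 / 2 + ε / 8) / Real.sqrt q ≤ |psi y q a - y / Nat.totient q|) ∧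
    (RiemannHypothesis ↔ ∀ ε : ℝ, 0 < ε → ε < 1 →
      ∃ᶠ X : ℝ in atTop, ∃ q : ℕ, 1 ≤ q ∧ (q : ℝ) ≤ X ^ ε ∧ ∀ a : ℕ, Nat.Coprime a q →
        ∀ y : ℝ, X ≤ y → y ≤ 2 * X →
          |psi y q a - y / Nat.totient q| ≤ X ^ (1 / 2 + ε) / Real.sqrt q) :=
  ⟨part1, part2, part3a, part3b⟩

end Pool.Agent.Results.MP_9cfc0a_nt.OneModulusCriterion
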