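import Mathlib
import Pool.Agent.R528.RM.EH9

set_option autoImplicit false

/-!
# Montgomery's conjecture in random models of the primes: the sharp law

The integers are decided one after the other, only integers coprime to a fixed `Q` can be chosen,
the conditional probability of choosing `n + 1` (coprime to `Q`) given the past is asymptotic to
`(Q / φ(Q)) / log n` and nonincreasing in `n` (no independence is assumed; for `Q = 1` Cramér's
model and the Hawkins random sieve are examples).  Almost surely, for every `0 < β < 1`, the largest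
normalized error `|π(x; q, a) - π(x) / φ_Q(q)| √(φ_Q(q) / x)` over all moduli `q ≤ x ^ β` and all
admissible classes `a` tends to `2 √β`.  So Montgomery's bound holds uniformly in this range without
the factor `x ^ ε`, and the best constant is `2 √β` (it is `√2` for `q ≤ √x`).
-/

open MeasureTheory Filter
open scoped Topology

namespace Pool.Agent.Results.MP_9cfc0a_nt.SharpLawRandomModels

/-- the number of admissible classes: residues `a` modulo `q` without common factor with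
`gcd(q, Q)` -/
def phiQ (Q q : ℕ) : ℕ := ((Finset.range q).filter (fun a => Nat.Coprime a (Nat.gcd q Q))).card

/-- the number of elements of `S` in `[1, x]` -/
noncomputable def piS (S : Set ℕ) (x : ℕ) : ℕ := Set.ncard {n : ℕ | n ∈ S ∧ 1 ≤ n ∧ n ≤ x}

/-- the number of elements of `S` in `[1, x]` congruent to `a` modulo `q` -/
noncomputable def piA (S : Set ℕ) (x q a : ℕ) : ℕ := Set.ncard {n : ℕ | n ∈ S ∧ 1 ≤ n ∧ n ≤ x ∧ n ≡ a [MOD q]}

/-- the largest normalized error over the moduli `q ≤ x ^ β` and the admissible classes -/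
noncomputable def M (S : Set ℕ) (Q : ℕ) (β : ℝ) (x : ℕ) : ℝ :=
  sSup {y : ℝ | ∃ q a : ℕ, 1 ≤ q ∧ (q : ℝ) ≤ (x : ℝ) ^ β ∧ a < q ∧ Nat.Coprime a (Nat.gcd q Q) ∧
    y = |(piA S x q a : ℝ) - (piS S x : ℝ) / phiQ Q q| * √((phiQ Q q : ℝ) / x)}

open Pool.Agent.R528.RM

lemma phiQ_eq (Q q : ℕ) : phiQ Q q = (adm Q q).card := rfl

lemma Ncl_card {Ω : Type} {A : ℕ → Set Ω} (R : Finset ℕ) (ω : Ω) [DecidablePred fun n => ω ∈ A n] :
    Ncl A R ω = ((R.filter (fun n => ω ∈ A n)).card : ℝ) := by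
  unfold Ncl In
  rw [Finset.card_filter]
  push_cast
  refine Finset.sum_congr rfl fun n _ => ?_
  rw [Set.indicator_apply]

lemma piA_eq {Ω : Type} {A : ℕ → Set Ω} {Q : ℕ} (hcop : ∀ n, ¬ Nat.Coprime n Q → A n = ∅) {x q a : ℕ} (ha : a < q) (ω : Ω) :
    (piA {k | ω ∈ A k} x q a : ℝ) = Ncl A (cls Q q a 0 x) ω := by
  classical
  rw [Ncl_card]
  unfold piA
  have h1 : {n : ℕ | n ∈ {k | ω ∈ A k} ∧ 1 ≤ n ∧ n ≤ x ∧ n ≡ a [MOD q]} =
      (((cls Q q a 0 x).filter (fun n => ω ∈ A n) : Finset ℕ) : Set ℕ) := by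
    ext n
    simp only [Set.mem_ofPred_eq, Finset.coe_filter, mem_cls]
    constructor
    · rintro ⟨h1, h2, h3, h4⟩
      refine ⟨⟨⟨by omega, h3⟩, ?_, ?_⟩, h1⟩
      · rw [Nat.ModEq, Nat.mod_eq_of_lt ha] at h4
        exact h4
      · by_contra hc
        rw [hcop n hc] at h1
        exact h1
    · rintro ⟨⟨⟨h1, h2⟩, h3, h4⟩, h5⟩
      refine ⟨h5, by omega, h2, ?_⟩
      rw [Nat.ModEq, Nat.mod_eq_of_lt ha]
      exact h3
  rw [h1, Set.ncard_coe_finset]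

lemma piS_eq {Ω : Type} {A : ℕ → Set Ω} {Q : ℕ} (hcop : ∀ n, ¬ Nat.Coprime n Q → A n = ∅) {x : ℕ} (ω : Ω) :
    (piS {k | ω ∈ A k} x : ℝ) = Ncl A (cls Q 1 0 0 x) ω := by
  rw [← piA_eq hcop one_pos]
  have h1 : {n : ℕ | n ∈ {k | ω ∈ A k} ∧ 1 ≤ n ∧ n ≤ x ∧ n ≡ 0 [MOD 1]} = {n : ℕ | n ∈ {k | ω ∈ A k} ∧ 1 ≤ n ∧ n ≤ x} := by
    ext n
    simp only [Set.mem_ofPred_eq, Nat.modEq_one, and_true]
  unfold piS piA
  rw [h1]

lemma term_eq {Ω : Type} {A : ℕ → Set Ω} {Q : ℕ} (hcop : ∀ n, ¬ Nat.Coprime n Q → A n = ∅) {x q a : ℕ} (ha : a < q) (ω : Ω) :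
    |(piA {k | ω ∈ A k} x q a : ℝ) - (piS {k | ω ∈ A k} x : ℝ) / phiQ Q q| = |Dv A Q x q a ω| := by
  unfold Dv
  rw [piA_eq hcop ha, piS_eq hcop, phiQ_eq]

lemma Bmn_norm {Q : ℕ} {β : ℝ} (hβ : 0 ≤ β) {x q : ℕ} (hx : 0 < x) (hq : 1 ≤ q) :
    Bmn Q (2 * β) x q * √((phiQ Q q : ℝ) / x) = 2 * √β := by
  have hcard := adm_pos Q (q := q) (by omega)
  have hx' : (0 : ℝ) < x := by exact_mod_cast hx
  unfold Bmn
  rw [phiQ_eq, ← Real.sqrt_mul (by positivity)]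
  have : 2 * (2 * β) * (x : ℝ) / (adm Q q).card * ((adm Q q).card / x) = 2 ^ 2 * β := by
    field_simp
  rw [this, Real.sqrt_mul (by norm_num), Real.sqrt_sq (by norm_num)]

end Pool.Agent.Results.MP_9cfc0a_nt.SharpLawRandomModels

open Pool.Agent.Results.MP_9cfc0a_nt.SharpLawRandomModels

/-- Let `A n` be the event that `n` belongs to a random set adapted to a filtration `ℱ`, let
`Q ≥ 1`, let no integer which is not coprime to `Q` be chosen, and let almost surely the conditional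
probability of `A (n + 1)` given `ℱ n` be nonincreasing along the `n` with `n + 1` coprime to `Q`
and, times `log n`, tend to `Q / φ(Q)` along these `n`.  Then almost surely, for every `0 < β < 1`,
the largest value of `|π(x; q, a) - π(x) / φ_Q(q)| √(φ_Q(q) / x)` over `q ≤ x ^ β` and the
admissible classes `a` modulo `q` tends to `2 √β`. -/
theorem Pool.Agent.Results.MP_9cfc0a_nt.SharpLawRandomModels.result
    {Ω : Type} [mΩ : MeasurableSpace Ω] (μ : Measure Ω) [IsProbabilityMeasure μ]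
    (ℱ : Filtration ℕ mΩ) (A : ℕ → Set Ω) (hA : ∀ n, MeasurableSet[ℱ n] (A n))
    (Q : ℕ) (hQ : 0 < Q) (hcop : ∀ n, ¬ Nat.Coprime n Q → A n = ∅)
    (hd : ∀ᵐ ω ∂μ, Tendsto (fun n : ℕ =>
      (μ[(A (n + 1)).indicator (fun _ => (1 : ℝ)) | ℱ n]) ω * Real.log n)
      (atTop ⊓ 𝓟 {n : ℕ | Nat.Coprime (n + 1) Q}) (𝓝 ((Q : ℝ) / Nat.totient Q)))
    (hmono : ∀ᵐ ω ∂μ, ∀ m n : ℕ, m ≤ n → Nat.Coprime (m + 1) Q → Nat.Coprime (n + 1) Q →
      (μ[(A (n + 1)).indicator (fun _ => (1 : ℝ)) | ℱ n]) ω ≤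
      (μ[(A (m + 1)).indicator (fun _ => (1 : ℝ)) | ℱ m]) ω) :
    ∀ᵐ ω ∂μ, ∀ β : ℝ, 0 < β → β < 1 →
      Tendsto (fun x : ℕ => M {k | ω ∈ A k} Q β x) atTop (𝓝 (2 * √β)) := by
  classical
  have hprof := Pool.Agent.R528.RM.dens_profile (μ := μ) (ℱ := ℱ) hA Q hQ hcop hd
  have hall : ∀ᵐ ω ∂μ, ∀ (r : ℚ) (m : ℕ), 0 < (r : ℝ) → (r : ℝ) < 1 → ∀ᶠ x : ℕ in atTop,
      (∀ q : ℕ, 1 ≤ q → (q : ℝ) ≤ (x : ℝ) ^ (r : ℝ) → ∀ a ∈ Pool.Agent.R528.RM.adm Q q,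
        |Pool.Agent.R528.RM.Dv A Q x q a ω| ≤ (1 + 9 * (1 / ((m : ℝ) + 10))) * Pool.Agent.R528.RM.Bmn Q (2 * r) x q) ∧
      (∃ q : ℕ, 1 ≤ q ∧ (q : ℝ) ≤ (x : ℝ) ^ (r : ℝ) ∧ ∃ a ∈ Pool.Agent.R528.RM.adm Q q,
        (1 - 9 * (1 / ((m : ℝ) + 10))) * Pool.Agent.R528.RM.Bmn Q (2 * r) x q ≤ |Pool.Agent.R528.RM.Dv A Q x q a ω|) := by
    refine ae_all_iff.2 fun r => ae_all_iff.2 fun m => ?_
    by_cases h1 : 0 < (r : ℝ)
    · by_cases h2 : (r : ℝ) < 1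
      · filter_upwards [Pool.Agent.R528.RM.Mont_eta hA hQ hprof hmono h1 h2 (η := 1 / ((m : ℝ) + 10)) (by positivity) (by
          apply one_div_le_one_div_of_le (by norm_num)
          linarith [Nat.cast_nonneg (α := ℝ) m])] with ω hω _ _
        exact hω
      · exact Eventually.of_forall fun ω _ h => absurd h h2
    · exact Eventually.of_forall fun ω h => absurd h h1
  filter_upwards [hall] with ω hω β hβ0 hβ1
  set S : Set ℕ := {k | ω ∈ A k} with hS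
  -- comparison with rational exponents
  have hub : ∀ ε : ℝ, 0 < ε → ∀ᶠ x : ℕ in atTop, ∀ y ∈ {y : ℝ | ∃ q a : ℕ, 1 ≤ q ∧ (q : ℝ) ≤ (x : ℝ) ^ β ∧ a < q ∧ Nat.Coprime a (Nat.gcd q Q) ∧
      y = |(piA S x q a : ℝ) - (piS S x : ℝ) / phiQ Q q| * √((phiQ Q q : ℝ) / x)}, y ≤ 2 * √β + ε := by
    intro ε hε
    have hc : Tendsto (fun r : ℝ => 2 * √r) (𝓝 β) (𝓝 (2 * √β)) := (Real.continuous_sqrt.tendsto β).const_mul 2
    have hev : ∀ᶠ r in 𝓝 β, 2 * √r < 2 * √β + ε / 2 := hc.eventually_lt_const (by linarith)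
    obtain ⟨δ, hδ, hδ'⟩ := Metric.eventually_nhds_iff.1 hev
    obtain ⟨r, hr1, hr2⟩ := exists_rat_btwn (lt_min (show β < β + δ by linarith) hβ1)
    have hr3 : (r : ℝ) < 1 := hr2.trans_le (min_le_right _ _)
    have hr4 : 2 * √(r : ℝ) < 2 * √β + ε / 2 := hδ' (by
      rw [Real.dist_eq, abs_of_pos (by linarith)]
      linarith [hr2.trans_le (min_le_left _ _)])
    have hr0 : 0 < (r : ℝ) := hβ0.trans hr1
    obtain ⟨m, hm⟩ := exists_nat_gt (36 * √(r : ℝ) / ε)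
    filter_upwards [hω r m hr0 hr3, eventually_ge_atTop 1] with x hx hx1 y hy
    obtain ⟨q, a, h1, h2, h3, h4, rfl⟩ := hy
    have hxr : (1 : ℝ) ≤ x := by exact_mod_cast hx1
    rw [hS, term_eq hcop h3]
    have h5 := hx.1 q h1 (h2.trans (Real.rpow_le_rpow_of_exponent_le hxr hr1.le)) a (Pool.Agent.R528.RM.mem_adm.2 ⟨h3, h4⟩)
    have h6 := mul_le_mul_of_nonneg_right h5 (Real.sqrt_nonneg ((phiQ Q q : ℝ) / x))
    rw [mul_assoc, Bmn_norm hr0.le (by omega) h1] at h6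
    refine h6.trans ?_
    have h7 : 9 * (1 / ((m : ℝ) + 10)) * (2 * √(r : ℝ)) ≤ ε / 2 := by
      rw [mul_one_div, div_mul_eq_mul_div, div_le_iff₀ (by positivity)]
      rw [div_lt_iff₀ hε] at hm
      nlinarith only [hm, hε]
    linarith only [h7, hr4]
  have hlb : ∀ ε : ℝ, 0 < ε → ∀ᶠ x : ℕ in atTop, ∃ y ∈ {y : ℝ | ∃ q a : ℕ, 1 ≤ q ∧ (q : ℝ) ≤ (x : ℝ) ^ β ∧ a < q ∧ Nat.Coprime a (Nat.gcd q Q) ∧
      y = |(piA S x q a : ℝ) - (piS S x : ℝ) / phiQ Q q| * √((phiQ Q q : ℝ) / x)}, 2 * √β - ε ≤ y := by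
    intro ε hε
    have hc : Tendsto (fun r : ℝ => 2 * √r) (𝓝 β) (𝓝 (2 * √β)) := (Real.continuous_sqrt.tendsto β).const_mul 2
    have hev : ∀ᶠ r in 𝓝 β, 2 * √β - ε / 2 < 2 * √r := hc.eventually_const_lt (by linarith)
    obtain ⟨δ, hδ, hδ'⟩ := Metric.eventually_nhds_iff.1 hev
    obtain ⟨r, hr1, hr2⟩ := exists_rat_btwn (max_lt (show β - δ < β by linarith) hβ0)
    have hr0 : 0 < (r : ℝ) := (le_max_right _ _).trans_lt hr1
    have hr3 : (r : ℝ) < 1 := hr2.trans hβ1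
    have hr4 : 2 * √β - ε / 2 < 2 * √(r : ℝ) := hδ' (by
      rw [Real.dist_eq, abs_sub_comm, abs_of_pos (by linarith)]
      linarith [(le_max_left _ _).trans_lt hr1])
    obtain ⟨m, hm⟩ := exists_nat_gt (36 * √(r : ℝ) / ε)
    filter_upwards [hω r m hr0 hr3, eventually_ge_atTop 1] with x hx hx1
    obtain ⟨q, h1, h2, a, ha, h5⟩ := hx.2
    obtain ⟨h3, h4⟩ := Pool.Agent.R528.RM.mem_adm.1 ha
    have hxr : (1 : ℝ) ≤ x := by exact_mod_cast hx1
    refine ⟨_, ⟨q, a, h1, h2.trans (Real.rpow_le_rpow_of_exponent_le hxr hr2.le), h3, h4, rfl⟩, ?_⟩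
    rw [hS, term_eq hcop h3]
    have h6 := mul_le_mul_of_nonneg_right h5 (Real.sqrt_nonneg ((phiQ Q q : ℝ) / x))
    rw [mul_assoc, Bmn_norm hr0.le (by omega) h1] at h6
    refine le_trans ?_ h6
    have h7 : 9 * (1 / ((m : ℝ) + 10)) * (2 * √(r : ℝ)) ≤ ε / 2 := by
      rw [mul_one_div, div_mul_eq_mul_div, div_le_iff₀ (by positivity)]
      rw [div_lt_iff₀ hε] at hm
      nlinarith only [hm, hε]
    linarith only [h7, hr4]
  rw [Metric.tendsto_nhds]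
  intro ε hε
  filter_upwards [hub (ε / 2) (by linarith), hlb (ε / 2) (by linarith)] with x h1 h2
  obtain ⟨y, hy, hy2⟩ := h2
  have h3 : M S Q β x ≤ 2 * √β + ε / 2 := csSup_le ⟨y, hy⟩ h1
  have h4 : 2 * √β - ε / 2 ≤ M S Q β x := hy2.trans (le_csSup ⟨_, h1⟩ hy)
  rw [Real.dist_eq, abs_lt]
  constructor <;> linarith only [h3, h4, hε]
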